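import Pool.Agent.U503.LBlow.Red

set_option autoImplicit false

/-!
Classes for `Pool.Agent.U503.LB.StP_cls` from permutations: consecutive permutations of a cyclic
list form a class, in every component of a class an edge is removed, chosen greedily.
-/

namespace Pool.Agent.U503.LB

open Finset SimpleGraph H931R3.LA Pool.Agent.X76.Det

section Greedy

variable {V : Type} [Fintype V] [DecidableEq V]

/-- In a graph all of whose degrees are at least `2 T / r` one can choose `T` edges in the component
of `x₀` such that every vertex is in at most `r` of them. -/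
theorem greedy (S : V → V → Prop) [DecidableRel S] (hirr : ∀ u, ¬ S u u) (r T : ℕ)
    (hdeg : ∀ x, 2 * T ≤ r * (univ.filter (S x)).card) (x₀ : V) :
    ∀ τ ≤ T, ∃ A : ℕ → V × V,
      (∀ t < τ, S (A t).1 (A t).2 ∧ Relation.ReflTransGen S x₀ (A t).1) ∧
      ∀ y, ∑ t ∈ range τ, ((if (A t).1 = y then 1 else 0) + (if (A t).2 = y then 1 else 0)) ≤ r := by
  intro τ
  induction τ with
  | zero => intro _; exact ⟨fun _ => (x₀, x₀), by simp, by simp⟩
  | succ τ ih =>
    intro hτ
    obtain ⟨A, hA, hL⟩ := ih (by omega)
    have hsum : ∑ y, ∑ t ∈ range τ,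
        ((if (A t).1 = y then 1 else 0) + (if (A t).2 = y then 1 else 0)) = 2 * τ := by
      rw [Finset.sum_comm]
      have e : ∀ t ∈ range τ,
          ∑ y, ((if (A t).1 = y then 1 else 0) + (if (A t).2 = y then 1 else 0)) = 2 := by
        intro t _
        rw [Finset.sum_add_distrib, Finset.sum_ite_eq, Finset.sum_ite_eq]
        simp
      rw [Finset.sum_congr rfl e, Finset.sum_const, Finset.card_range, smul_eq_mul, mul_comm]
    have claim : ∀ x, ∃ y, S x y ∧ ∑ t ∈ range τ,
        ((if (A t).1 = y then 1 else 0) + (if (A t).2 = y then 1 else 0)) < r := by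
      intro x
      by_contra hno
      push Not at hno
      have h1 : (univ.filter (S x)).card • r ≤ ∑ y ∈ univ.filter (S x), ∑ t ∈ range τ,
          ((if (A t).1 = y then 1 else 0) + (if (A t).2 = y then 1 else 0)) :=
        Finset.card_nsmul_le_sum _ _ _ (fun y hy => hno y (mem_filter.1 hy).2)
      have h2 := Finset.sum_le_sum_of_subset (f := fun y => ∑ t ∈ range τ,
          ((if (A t).1 = y then 1 else 0) + (if (A t).2 = y then 1 else 0)))
          (filter_subset (S x) univ)
      have h3 := hdeg x
      rw [smul_eq_mul, mul_comm] at h1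
      omega
    obtain ⟨y, hy1, hy2⟩ := claim x₀
    obtain ⟨y', hy1', hy2'⟩ := claim y
    refine ⟨Function.update A τ (y, y'), ?_, ?_⟩
    · intro t ht
      by_cases htt : t = τ
      · subst htt
        rw [Function.update_self]
        exact ⟨hy1', Relation.ReflTransGen.single hy1⟩
      · rw [Function.update_of_ne htt]
        exact hA t (by omega)
    · intro z
      rw [Finset.sum_range_succ, Function.update_self]
      have e : ∀ t ∈ range τ, ((if (Function.update A τ (y, y') t).1 = z then 1 else 0) +
          (if (Function.update A τ (y, y') t).2 = z then 1 else 0)) =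
          ((if (A t).1 = z then 1 else 0) + (if (A t).2 = z then 1 else 0)) := by
        intro t ht
        have := mem_range.1 ht
        rw [Function.update_of_ne (by omega)]
      rw [Finset.sum_congr rfl e]
      have hz := hL z
      simp only
      by_cases h1 : y = z
      · by_cases h2 : y' = z
        · rw [h1, h2] at hy1'
          exact absurd hy1' (hirr z)
        · rw [if_pos h1, if_neg h2, ← h1]
          omega
      · by_cases h2 : y' = z
        · rw [if_neg h1, if_pos h2, ← h2]
          omega
        · rw [if_neg h1, if_neg h2]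
          omega

end Greedy

/-- representatives of the components -/
theorem exists_rep {V : Type} (S : V → V → Prop) (hs : ∀ u v, S u v → S v u)
    (hirr : ∀ u, ¬ S u u) :
    ∃ rp : V → V, (∀ x, Relation.ReflTransGen S (rp x) x) ∧
      (∀ x, Relation.ReflTransGen S x (rp x)) ∧ ∀ x y, Relation.ReflTransGen S x y → rp x = rp y := by
  let G : SimpleGraph V :=
    { Adj := S, symm := ⟨fun u v h => hs u v h⟩, loopless := ⟨fun u h => hirr u h⟩ }
  have hrt : ∀ x y, G.Reachable x y ↔ Relation.ReflTransGen S x y := fun x y =>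
    SimpleGraph.reachable_iff_reflTransGen x y
  have hq : ∀ x, G.connectedComponentMk (Quot.out (G.connectedComponentMk x)) =
      G.connectedComponentMk x := fun x => Quot.out_eq (G.connectedComponentMk x)
  refine ⟨fun x => Quot.out (G.connectedComponentMk x), ?_, ?_, ?_⟩
  · intro x
    exact (hrt _ _).1 (SimpleGraph.ConnectedComponent.exact (hq x))
  · intro x
    exact (hrt _ _).1 (SimpleGraph.ConnectedComponent.exact (hq x).symm)
  · intro x y h
    have : G.connectedComponentMk x = G.connectedComponentMk y :=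
      SimpleGraph.ConnectedComponent.sound ((hrt _ _).2 h)
    simp only [this]

section Cyc

/-- sums over a full period -/
theorem cyc_shift (N : ℕ) (a : ℕ → ℕ) (s : ℕ) :
    ∑ i ∈ range N, a ((i + s) % N) = ∑ i ∈ range N, a i := by
  induction s with
  | zero =>
    apply Finset.sum_congr rfl
    intro i hi
    rw [add_zero, Nat.mod_eq_of_lt (mem_range.1 hi)]
  | succ s ih =>
    rw [← ih]
    have h1 := Finset.sum_range_succ (fun i => a ((i + s) % N)) N
    have h2 := Finset.sum_range_succ' (fun i => a ((i + s) % N)) N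
    have h3 : a ((N + s) % N) = a ((0 + s) % N) := by rw [Nat.add_mod_left, zero_add]
    have h4 : ∑ i ∈ range N, a ((i + 1 + s) % N) = ∑ i ∈ range N, a ((i + (s + 1)) % N) := by
      apply Finset.sum_congr rfl
      intro i _
      congr 2
      omega
    omega

theorem cyc_le (N m r : ℕ) (a : ℕ → ℕ) (i : ℕ) (h : m ≤ r * N) :
    ∑ s ∈ range m, a ((i + s) % N) ≤ r * ∑ j ∈ range N, a j := by
  have h1 : ∀ r, ∑ s ∈ range (r * N), a ((i + s) % N) = r * ∑ j ∈ range N, a j := by
    intro r
    induction r with
    | zero => simp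
    | succ r ih =>
      rw [Nat.succ_mul, Finset.sum_range_add, ih, Nat.succ_mul]
      congr 1
      rw [← cyc_shift N a (i + r * N)]
      apply Finset.sum_congr rfl
      intro j _
      congr 2
      omega
  rw [← h1 r]
  exact Finset.sum_le_sum_of_subset (Finset.range_mono h)

end Cyc

section Perm

variable {V : Type} [Fintype V] [DecidableEq V]

/-- the number of arcs of `σ` between `u` and `v` -/
def arc (σ : Equiv.Perm V) (u v : V) : ℕ :=
  (if σ u = v then 1 else 0) + (if σ v = u then 1 else 0)

theorem arc_symm (σ : Equiv.Perm V) (u v : V) : arc σ u v = arc σ v u := add_comm _ _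

theorem arc_sum (σ : Equiv.Perm V) (u : V) : ∑ v, arc σ u v = 2 := by
  unfold arc
  rw [Finset.sum_add_distrib, Finset.sum_ite_eq]
  have e : ∀ v, (if σ v = u then 1 else 0) = (if σ.symm u = v then 1 else 0) := by
    intro v
    by_cases h : σ v = u
    · rw [if_pos h, if_pos (by rw [← h, Equiv.symm_apply_apply])]
    · rw [if_neg h, if_neg (fun h' => h (by rw [← h', Equiv.apply_symm_apply]))]
  rw [Finset.sum_congr rfl fun v _ => e v, Finset.sum_ite_eq]
  simp

/-- the class of `m` consecutive permutations, from the `i`th on -/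
def Hc (N m : ℕ) (σ : ℕ → Equiv.Perm V) (i : ℕ) (u v : V) : ℕ :=
  ∑ s ∈ range m, arc (σ ((i + s) % N)) u v

theorem Hc_symm (N m : ℕ) (σ : ℕ → Equiv.Perm V) (i : ℕ) (u v : V) :
    Hc N m σ i u v = Hc N m σ i v u :=
  Finset.sum_congr rfl fun _ _ => arc_symm _ _ _

theorem Hc_sum (N m : ℕ) (σ : ℕ → Equiv.Perm V) (i : ℕ) (u : V) :
    ∑ v, Hc N m σ i u v = 2 * m := by
  unfold Hc
  rw [Finset.sum_comm, Finset.sum_congr rfl fun s _ => arc_sum _ u, Finset.sum_const,
    Finset.card_range, smul_eq_mul, mul_comm]

theorem Hc_total (N m : ℕ) (σ : ℕ → Equiv.Perm V) (u v : V) :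
    ∑ i ∈ range N, Hc N m σ i u v = m * ∑ j ∈ range N, arc (σ j) u v := by
  unfold Hc
  rw [Finset.sum_comm, Finset.sum_congr rfl fun s _ => cyc_shift N (fun j => arc (σ j) u v) s,
    Finset.sum_const, Finset.card_range, smul_eq_mul]

open Classical in
theorem cov_perm {W : Type} [Finite W] (G : SimpleGraph V)
    (N lam T r : ℕ) (hT : 1 ≤ T) (hlam : 1 ≤ lam) (hr1 : lam * T ≤ r * N)
    (hr2 : N * r + 1 ≤ 2 * (lam * T)) (σ : ℕ → Equiv.Perm V)
    (hσ : ∀ u v, ∑ j ∈ range N, arc (σ j) u v = lam * (if G.Adj u v then 1 else 0))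
    (f : W → V) (hf : ∀ v, {w | f w = v}.ncard = lam * T) :
    Cov (G.comap f) (N * T + 1) := by
  classical
  set m := lam * T with hm
  have hm1 : 1 ≤ m := Nat.mul_pos hlam hT
  have hle : ∀ i u v, Hc N m σ i u v ≤ r * lam * (if G.Adj u v then 1 else 0) := by
    intro i u v
    have := cyc_le N m r (fun j => arc (σ j) u v) i hr1
    rw [hσ] at this
    rw [mul_assoc]
    exact this
  have hH0 : ∀ i u, Hc N m σ i u u = 0 := by
    intro i u
    have := hle i u u
    rw [if_neg (G.loopless.irrefl u), mul_zero] at this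
    omega
  -- the supports
  let S : ℕ → V → V → Prop := fun i u v => 0 < Hc N m σ i u v
  have hSs : ∀ i u v, S i u v → S i v u := fun i u v h => by
    show 0 < _
    rw [Hc_symm]
    exact h
  have hS0 : ∀ i u, ¬ S i u u := fun i u h => by
    have : 0 < Hc N m σ i u u := h
    rw [hH0] at this
    omega
  have hSdeg : ∀ i x, 2 * T ≤ r * (univ.filter (S i x)).card := by
    intro i x
    have h1 := Hc_sum N m σ i x
    have h2 : ∑ v, Hc N m σ i x v = ∑ v ∈ univ.filter (S i x), Hc N m σ i x v := by
      rw [Finset.sum_filter]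
      apply Finset.sum_congr rfl
      intro v _
      by_cases h : S i x v
      · rw [if_pos h]
      · rw [if_neg h]
        have : ¬ 0 < Hc N m σ i x v := h
        omega
    have h3 : ∑ v ∈ univ.filter (S i x), Hc N m σ i x v ≤
        (univ.filter (S i x)).card • (r * lam) := by
      apply Finset.sum_le_card_nsmul
      intro v _
      refine (hle i x v).trans ?_
      by_cases h : G.Adj x v
      · rw [if_pos h, mul_one]
      · rw [if_neg h, mul_zero]
        exact Nat.zero_le _
    rw [smul_eq_mul] at h3
    rw [h2] at h1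
    rw [h1] at h3
    have h4 : lam * (2 * T) ≤ lam * (r * (univ.filter (S i x)).card) := by
      have e1 : lam * (2 * T) = 2 * m := by rw [hm]; ring
      have e2 : lam * (r * (univ.filter (S i x)).card) = (univ.filter (S i x)).card * (r * lam) := by
        ring
      rw [e1, e2]
      exact h3
    exact Nat.le_of_mul_le_mul_left h4 hlam
  have hrep := fun i => exists_rep (S i) (hSs i) (hS0 i)
  choose rp hrp1 hrp2 hrp3 using hrep
  have hg := fun i x => greedy (S i) (hS0 i) r T (hSdeg i) x T le_rfl
  choose A hA hL using hg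
  let R : Fin N × Fin T → V → V → ℕ := fun c u v =>
    if A c.1 (rp c.1 u) c.2 = (u, v) ∨ A c.1 (rp c.1 u) c.2 = (v, u) then 1 else 0
  have hRS : ∀ c u v, 1 ≤ R c u v → S c.1 u v ∧ rp c.1 u = rp c.1 v := by
    intro c u v h
    have h1 : A c.1 (rp c.1 u) c.2 = (u, v) ∨ A c.1 (rp c.1 u) c.2 = (v, u) := by
      by_contra hno
      have : R c u v = 0 := if_neg hno
      omega
    have h2 := (hA c.1 (rp c.1 u) c.2 c.2.2).1
    have h3 : S c.1 u v := by
      rcases h1 with h1 | h1
      · rw [h1] at h2
        exact h2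
      · rw [h1] at h2
        exact hSs _ _ _ h2
    exact ⟨h3, hrp3 _ _ _ (Relation.ReflTransGen.single h3)⟩
  have hRle1 : ∀ c u v, R c u v ≤ 1 := by
    intro c u v
    show (if _ then 1 else 0) ≤ 1
    split_ifs <;> omega
  have hRs1 : ∀ c u v, 1 ≤ R c u v → R c v u = 1 := by
    intro c u v h
    obtain ⟨_, h2⟩ := hRS c u v h
    have h1 : A c.1 (rp c.1 u) c.2 = (u, v) ∨ A c.1 (rp c.1 u) c.2 = (v, u) := by
      by_contra hno
      have : R c u v = 0 := if_neg hno
      omega
    show (if _ then 1 else 0) = 1
    rw [if_pos]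
    rw [← h2]
    exact h1.symm
  have hRs : ∀ c u v, R c u v = R c v u := by
    intro c u v
    have h1 := hRle1 c u v
    have h2 := hRle1 c v u
    rcases Nat.eq_zero_or_pos (R c u v) with h | h
    · rcases Nat.eq_zero_or_pos (R c v u) with h' | h'
      · omega
      · have := hRs1 c v u h'
        omega
    · have := hRs1 c u v h
      omega
  let H : Fin N × Fin T → V → V → ℕ := fun c u v => Hc N m σ c.1 u v
  have hRH : ∀ c u v, R c u v ≤ H c u v := by
    intro c u v
    rcases Nat.eq_zero_or_pos (R c u v) with h | h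
    · omega
    · have h1 : 0 < H c u v := (hRS c u v h).1
      have h2 := hRle1 c u v
      omega
  have hRsum : ∀ c u, ∑ v, R c u v ≤
      (if (A c.1 (rp c.1 u) c.2).1 = u then 1 else 0) +
        (if (A c.1 (rp c.1 u) c.2).2 = u then 1 else 0) := by
    intro c u
    have h1 : ∀ v, R c u v ≤
        (if (A c.1 (rp c.1 u) c.2).2 = v then
          (if (A c.1 (rp c.1 u) c.2).1 = u then 1 else 0) else 0) +
        (if (A c.1 (rp c.1 u) c.2).1 = v then
          (if (A c.1 (rp c.1 u) c.2).2 = u then 1 else 0) else 0) := by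
      intro v
      by_cases h : A c.1 (rp c.1 u) c.2 = (u, v) ∨ A c.1 (rp c.1 u) c.2 = (v, u)
      · refine (hRle1 c u v).trans ?_
        rcases h with h | h
        · rw [h]
          simp
        · rw [h]
          simp
      · have : R c u v = 0 := if_neg h
        omega
    refine (Finset.sum_le_sum fun v _ => h1 v).trans ?_
    rw [Finset.sum_add_distrib, Finset.sum_ite_eq, Finset.sum_ite_eq]
    simp
  have hload : ∀ u, ∑ c, ∑ v, R c u v + 1 ≤ 2 * m := by
    intro u
    have h1 : ∑ c, ∑ v, R c u v ≤ N * r := by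
      rw [Fintype.sum_prod_type]
      have h2 : ∀ i : Fin N, ∑ t : Fin T, ∑ v, R (i, t) u v ≤ r := by
        intro i
        refine le_trans (Finset.sum_le_sum fun t _ => hRsum (i, t) u) ?_
        have h3 := hL i (rp i u) u
        rw [Finset.sum_range] at h3
        exact h3
      refine (Finset.sum_le_card_nsmul _ _ _ fun i _ => h2 i).trans ?_
      rw [Finset.card_univ, Fintype.card_fin, smul_eq_mul]
    omega
  have hsingle : ∀ c x y, 1 ≤ R c x y → 1 ≤ ∑ v, R c x v := fun c x y h =>
    h.trans (Finset.single_le_sum (f := fun v => R c x v) (fun _ _ => Nat.zero_le _) (mem_univ y))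
  have hconn' : ∀ c u a b, Relation.ReflTransGen (S c.1) u a → 1 ≤ R c a b →
      ∃ w, Relation.ReflTransGen (fun a b => R c a b < H c a b) u w ∧ 1 ≤ ∑ v, R c w v := by
    intro c u a b hua hab
    induction hua using Relation.ReflTransGen.head_induction_on with
    | refl => exact ⟨a, Relation.ReflTransGen.refl, hsingle c a b hab⟩
    | @head x y hxy _ ih =>
      obtain ⟨w, hw1, hw2⟩ := ih
      by_cases h : R c x y < H c x y
      · exact ⟨w, Relation.ReflTransGen.head h hw1, hw2⟩
      · have h1 : 0 < H c x y := hxy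
        exact ⟨x, Relation.ReflTransGen.refl, hsingle c x y (by omega)⟩
  have hconn : ∀ c u, ∃ w, Relation.ReflTransGen (fun a b => R c a b < H c a b) u w ∧
      1 ≤ ∑ v, R c w v := by
    intro c u
    have hA' := hA c.1 (rp c.1 u) c.2 c.2.2
    have h1 : Relation.ReflTransGen (S c.1) u (A c.1 (rp c.1 u) c.2).1 :=
      (hrp2 c.1 u).trans hA'.2
    have h2 : rp c.1 (A c.1 (rp c.1 u) c.2).1 = rp c.1 u := (hrp3 _ _ _ h1).symm
    have h3 : R c (A c.1 (rp c.1 u) c.2).1 (A c.1 (rp c.1 u) c.2).2 = 1 := by
      show (if _ then 1 else 0) = 1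
      rw [if_pos]
      left
      rw [h2]
    exact hconn' c u _ _ h1 h3.ge
  have hfin := StP_cls G m hm1 H R (fun c u v => Hc_symm _ _ _ _ _ _) (fun c u => hH0 _ _)
    (fun u v huv => ?_) (fun c u => Hc_sum _ _ _ _ _) hRs hRH hload hconn
  · have := cov_of_StP G m 2 f hf _ hfin
    rw [Fintype.card_option, Fintype.card_prod, Fintype.card_fin, Fintype.card_fin] at this
    exact this
  · show ∑ c : Fin N × Fin T, Hc N m σ c.1 u v = _
    rw [Fintype.sum_prod_type]
    simp only [Finset.sum_const, Finset.card_univ, Fintype.card_fin, smul_eq_mul]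
    rw [← Finset.mul_sum, ← Finset.sum_range (fun i => Hc N m σ i u v), Hc_total, hσ, hm]
    ring

end Perm

end Pool.Agent.U503.LB
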