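import Pool.Agent.X76.Det7

set_option autoImplicit false

/-!
Linear forests of blow-ups from edge-coloured multigraphs with an extra vertex: the classes of an
edge-coloured multigraph on the vertices of `G` and one extra vertex are split
(`Pool.Agent.X76.Det7`), the extra vertex is deleted.
-/

namespace Pool.Agent.U503.LB

open Finset SimpleGraph H931R3.LA Pool.Agent.X76.Det

/-- the weights: the extra vertex `none` has weight `s` -/
def wt {V : Type} (m s : ℕ) : Option V → ℕ
  | none => s
  | some _ => m

open Classical in
/-- multiplicities: `G` on `V`, and all vertices are adjacent to `none` -/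
noncomputable def am {V : Type} (G : SimpleGraph V) : Option V → Option V → ℕ
  | none, none => 0
  | none, some _ => 1
  | some _, none => 1
  | some u, some v => if G.Adj u v then 1 else 0

theorem am_symm {V : Type} (G : SimpleGraph V) (x y : Option V) : am G x y = am G y x := by
  rcases x with _ | u <;> rcases y with _ | v
  · rfl
  · rfl
  · rfl
  · simp only [am]
    by_cases h : G.Adj u v
    · rw [if_pos h, if_pos h.symm]
    · rw [if_neg h, if_neg (fun h' => h h'.symm)]

theorem cov_of_StP {V W C : Type} [Fintype V] [Finite W] [Fintype C] (G : SimpleGraph V)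
    (m s : ℕ) (f : W → V) (hf : ∀ v, {w | f w = v}.ncard = m)
    (M : C → Option V → Option V → ℕ) (h : StP (fun x => x ≠ none) (wt m s) (am G) M) :
    Cov (G.comap f) (Fintype.card C) := by
  classical
  have : Fintype W := Fintype.ofFinite W
  obtain ⟨Y, hY, π, g', N, h1, h2, h3, h4, h5⟩ := detachP _ (Option V) _ _ _ M (am_symm G) h rfl
  obtain ⟨z, hz⟩ : ∃ z, {y | π y = none} = {z} := Set.ncard_eq_one.1 (h2 none (by simp))
  have hz0 : π z = none := by
    have : z ∈ {y | π y = none} := by rw [hz]; exact Set.mem_singleton z
    exact this
  have hzz : ∀ y, π y = none → y = z := by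
    intro y hy
    have : y ∈ {y | π y = none} := hy
    rw [hz] at this
    exact this
  have hne : ∀ v, Nonempty ({w // f w = v} ≃ {y // π y = some v}) := by
    intro v
    apply Finite.card_eq.1
    have e1 : Nat.card {w // f w = v} = m := hf v
    have e2 : Nat.card {y // π y = some v} = m := h1 (some v) (by simp)
    rw [e1, e2]
  let ev := fun v => (hne v).some
  let e : W → Y := fun w => (ev (f w) ⟨w, rfl⟩).1
  have he : ∀ w, π (e w) = some (f w) := fun w => (ev (f w) ⟨w, rfl⟩).2
  have hev : ∀ v (w : W) (hw : f w = v), e w = (ev v ⟨w, hw⟩).1 := by
    intro v w hw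
    subst hw
    rfl
  have heinj : Function.Injective e := by
    intro w w' hww
    have hfw : f w = f w' := by
      have := he w
      rw [hww, he w'] at this
      exact (Option.some.inj this).symm
    have e1 := hev (f w') w hfw
    have e2 := hev (f w') w' rfl
    rw [e1, e2] at hww
    have e3 := (ev (f w')).injective (Subtype.ext hww)
    exact congrArg Subtype.val e3
  have hez : ∀ w, e w ≠ z := by
    intro w hw
    have := he w
    rw [hw, hz0] at this
    simp at this
  let E : C → SimpleGraph W := fun c =>
    { Adj := fun u v => u ≠ v ∧ 1 ≤ N c (e u) (e v)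
      symm := ⟨fun u v huv => ⟨huv.1.symm, by rw [h5.symm c]; exact huv.2⟩⟩
      loopless := ⟨fun u hu => hu.1 rfl⟩ }
  have hLF : ∀ c, IsLF (E c) := by
    intro c
    refine lf_of_class (N c) (h5.symm c) z ?_ (h5.conn c) e heinj hez (E c) (fun u v huv => huv.2)
    intro y hy
    have hP : π y ≠ none := fun hh => hy (hzz y hh)
    rw [h5.deg c y hP, h3 y hP]
  have hsup : (⨆ c, E c) = G.comap f := by
    ext u v
    rw [SimpleGraph.iSup_adj, SimpleGraph.comap_adj]
    by_cases huv : u = v
    · subst huv
      constructor
      · rintro ⟨c, hc⟩
        exact absurd rfl hc.1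
      · intro hG
        exact absurd rfl hG.ne
    · have e1 := h5.mult (e u) (e v) (fun hh => huv (heinj hh))
      rw [h3 (e u) (by rw [he]; simp), h3 (e v) (by rw [he]; simp), he, he] at e1
      simp only [am] at e1
      constructor
      · rintro ⟨c, hc⟩
        by_contra hno
        rw [if_neg hno] at e1
        have e2 : N c (e u) (e v) ≤ ∑ c, N c (e u) (e v) :=
          Finset.single_le_sum (f := fun c => N c (e u) (e v)) (fun i _ => Nat.zero_le _) (mem_univ c)
        have e3 := hc.2
        omega
      · intro hG
        rw [if_pos hG] at e1
        by_contra hno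
        push Not at hno
        have e2 : ∑ c, N c (e u) (e v) = 0 := by
          apply Finset.sum_eq_zero
          intro c _
          by_contra hc
          exact hno c ⟨huv, Nat.one_le_iff_ne_zero.2 hc⟩
        omega
  refine ⟨fun i => E ((Fintype.equivFin C).symm i), fun i => hLF _, ?_⟩
  rw [← hsup]
  exact (Fintype.equivFin C).symm.iSup_comp (g := E)

section Classes

variable {V I : Type} [Fintype V] [Fintype I]

/-- the classes `H i` with the edges of `R i` replaced by pairs of edges to the extra vertex, and
one more class with the removed edges -/
def cls (m : ℕ) (H R : I → V → V → ℕ) : Option I → Option V → Option V → ℕ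
  | some i, some u, some v => H i u v - R i u v
  | some i, some u, none => ∑ v, R i u v
  | some i, none, some u => ∑ v, R i u v
  | some _, none, none => 0
  | none, some u, some v => ∑ i, R i u v
  | none, some u, none => 2 * m - ∑ i, ∑ v, R i u v
  | none, none, some u => 2 * m - ∑ i, ∑ v, R i u v
  | none, none, none => 0

open Classical in
theorem StP_cls (G : SimpleGraph V) (m : ℕ) (hm : 1 ≤ m) (H R : I → V → V → ℕ)
    (hHs : ∀ i u v, H i u v = H i v u) (hH0 : ∀ i u, H i u u = 0)
    (hHm : ∀ u v, u ≠ v → ∑ i, H i u v = m * m * (if G.Adj u v then 1 else 0))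
    (hHd : ∀ i u, ∑ v, H i u v = 2 * m)
    (hRs : ∀ i u v, R i u v = R i v u) (hRH : ∀ i u v, R i u v ≤ H i u v)
    (hload : ∀ u, ∑ i, ∑ v, R i u v + 1 ≤ 2 * m)
    (hconn : ∀ i u, ∃ w, Relation.ReflTransGen (fun a b => R i a b < H i a b) u w ∧
      1 ≤ ∑ v, R i w v) :
    StP (fun x => x ≠ none) (wt m 2) (am G) (cls m H R) := by
  have hR0 : ∀ i u, R i u u = 0 := fun i u => by
    have := hRH i u u
    rw [hH0] at this
    omega
  have hsymm : ∀ c x y, cls m H R c x y = cls m H R c y x := by
    intro c x y
    rcases c with _ | i <;> rcases x with _ | u <;> rcases y with _ | v <;> simp only [cls]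
    · exact sum_congr rfl fun i _ => hRs i u v
    · rw [hHs i u v, hRs i u v]
  have hdiag : ∀ c x, cls m H R c x x = 0 := by
    intro c x
    rcases c with _ | i <;> rcases x with _ | u <;> simp only [cls]
    · exact Finset.sum_eq_zero fun i _ => hR0 i u
    · rw [hH0]
      omega
  have hdeg : ∀ c (u : V), ∑ y, cls m H R c (some u) y = 2 * m := by
    intro c u
    rw [Fintype.sum_option]
    rcases c with _ | i <;> simp only [cls]
    · have e : ∑ v, ∑ i, R i u v = ∑ i, ∑ v, R i u v := Finset.sum_comm
      rw [e]
      have := hload u
      omega
    · rw [← Finset.sum_add_distrib, ← hHd i u]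
      apply Finset.sum_congr rfl
      intro v _
      have := hRH i u v
      omega
  have hadj : ∀ (c : Option I) (x y : Option V), x ≠ y → 0 < cls m H R c x y →
      (supp (cls m H R c)).Adj x y := by
    intro c x y hxy h
    exact ⟨hxy, h, by rw [hsymm]; exact h⟩
  refine ⟨?_, hsymm, ?_, ?_, ?_, ?_, ?_, ?_, ?_⟩
  · rintro (_ | v) hx
    · exact absurd rfl hx
    · exact hm
  · intro c x
    rw [hdiag]
    exact Even.zero
  · intro x y hxy
    rw [Fintype.sum_option]
    rcases x with _ | u <;> rcases y with _ | v
    · exact absurd rfl hxy
    · simp only [cls, wt, am]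
      have := hload v
      omega
    · simp only [cls, wt, am]
      have := hload u
      omega
    · simp only [cls, wt, am]
      rw [← Finset.sum_add_distrib, ← hHm u v (fun h => hxy (by rw [h]))]
      apply Finset.sum_congr rfl
      intro i _
      have := hRH i u v
      omega
  · rintro (_ | v) hx
    · exact absurd rfl hx
    · rw [Finset.sum_eq_zero fun c _ => hdiag c _]
      simp only [am, if_neg (G.loopless.irrefl v)]
      simp
  · intro c x _
    exact hdiag c x
  · rintro c (_ | u) hx
    · exact absurd rfl hx
    · exact hdeg c u
  · intro c x
    rcases x with _ | u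
    · have e1 : Even (∑ x : V, ∑ y : V, cls m H R c (some x) (some y)) :=
        even_sum_symm (fun x y => cls m H R c (some x) (some y)) (fun x y => hsymm c _ _)
          (fun x => by rw [hdiag]; exact Even.zero) univ
      have e2 : ∑ x : V, ∑ y : Option V, cls m H R c (some x) y = 2 * (m * Fintype.card V) := by
        rw [Finset.sum_congr rfl fun x _ => hdeg c x, Finset.sum_const, Finset.card_univ,
          smul_eq_mul]
        ring
      have e3 : ∑ x : V, ∑ y : Option V, cls m H R c (some x) y =
          ∑ x : V, cls m H R c (some x) none + ∑ x : V, ∑ y : V, cls m H R c (some x) (some y) := by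
        rw [← Finset.sum_add_distrib]
        exact Finset.sum_congr rfl fun x _ => Fintype.sum_option _
      have e4 : ∑ y : Option V, cls m H R c none y = ∑ x : V, cls m H R c (some x) none := by
        rw [Fintype.sum_option, hdiag, zero_add]
        exact Finset.sum_congr rfl fun x _ => hsymm c _ _
      rw [e4]
      obtain ⟨j, hj⟩ := e1
      rw [e2] at e3
      refine ⟨m * Fintype.card V - j, ?_⟩
      omega
    · rw [hdeg]
      exact even_two_mul m
  · intro c
    have : Nonempty (Option V) := ⟨none⟩
    refine SimpleGraph.Connected.mk (fun x y => ?_)
    have key : ∀ x : Option V, (supp (cls m H R c)).Reachable x none := by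
      intro x
      rcases x with _ | u
      · exact Reachable.refl _
      · rcases c with _ | i
        · refine (hadj none (some u) none (by simp) ?_).reachable
          simp only [cls]
          have := hload u
          omega
        · obtain ⟨w, hw, hw1⟩ := hconn i u
          have h1 : ∀ a b : V, Relation.ReflTransGen (fun a b => R i a b < H i a b) a b →
              (supp (cls m H R (some i))).Reachable (some a) (some b) := by
            intro a b hab
            induction hab with
            | refl => exact Reachable.refl _
            | @tail b' c' _ hbc ih =>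
              refine ih.trans (hadj (some i) (some b') (some c') ?_ ?_).reachable
              · rintro hh
                have := Option.some.inj hh
                subst this
                rw [hH0] at hbc
                omega
              · simp only [cls]
                omega
          refine (h1 u w hw).trans (hadj (some i) (some w) none (by simp) ?_).reachable
          simp only [cls]
          omega
    exact (key x).trans (key y).symm

end Classes

end Pool.Agent.U503.LB
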