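import Pool.Agent.U503.LBlow.Perm
import Pool.Agent.R448.LTop
import Pool.Agent.N347.LB.TopOdd

set_option autoImplicit false

/-!
Linear arboricity of blow-ups of regular graphs by sets of about a quarter of the degree.
-/

namespace Pool.Agent.U503.LB

open Finset SimpleGraph H931R3.LA

open Classical in
/-- a digraph with all outdegrees and indegrees `N` is a disjoint union of `N` permutations -/
theorem exists_sigma {V : Type} [Fintype V] (D : V → V → Prop) (N : ℕ)
    (hout : ∀ v, {w | D v w}.ncard = N) (hin : ∀ v, {w | D w v}.ncard = N) :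
    ∃ σ : ℕ → Equiv.Perm V, ∀ u v,
      ∑ j ∈ range N, (if σ j u = v then 1 else 0) = if D u v then 1 else 0 := by
  obtain ⟨τ, hτ⟩ := Pool.Agent.R448.LP.perms D N (fun v => (hout v).le) (fun v => (hin v).le)
  refine ⟨fun j => if h : j < N then τ ⟨j, h⟩ else 1, fun u v => ?_⟩
  rw [Finset.sum_range]
  have e : ∀ j : Fin N, (if (if h : (j : ℕ) < N then τ ⟨j, h⟩ else 1) u = v then 1 else 0) =
      (if τ j u = v then 1 else 0) := by
    intro j
    rw [dif_pos j.2]
  rw [Finset.sum_congr rfl fun j _ => e j]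
  have h1 : univ.filter (fun w => D u w) ⊆ univ.image (fun i => τ i u) := by
    intro w hw
    obtain ⟨i, hi⟩ := hτ u w (mem_filter.1 hw).2
    exact mem_image.2 ⟨i, mem_univ _, hi⟩
  have h2 : (univ.filter (fun w => D u w)).card = N := by
    rw [← hout u, Set.ncard_eq_toFinset_card']
    congr 1
    ext w
    simp
  have h3 : (univ.image (fun i => τ i u)).card ≤ N := by
    refine Finset.card_image_le.trans ?_
    rw [Finset.card_univ, Fintype.card_fin]
  have h4 : univ.filter (fun w => D u w) = univ.image (fun i => τ i u) :=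
    Finset.eq_of_subset_of_card_le h1 (by omega)
  have h5 : Function.Injective (fun i => τ i u) := by
    have : (univ.image (fun i => τ i u)).card = (univ : Finset (Fin N)).card := by
      rw [← h4, h2, Finset.card_univ, Fintype.card_fin]
    have := Finset.card_image_iff.1 this
    intro a b hab
    exact this (by simp) (by simp) hab
  by_cases hD : D u v
  · rw [if_pos hD]
    obtain ⟨i, hi⟩ := hτ u v hD
    rw [Finset.sum_eq_single i]
    · rw [if_pos hi]
    · intro j _ hj
      rw [if_neg]
      intro hj'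
      exact hj (h5 (hj'.trans hi.symm))
    · intro h
      exact absurd (mem_univ i) h
  · rw [if_neg hD]
    apply Finset.sum_eq_zero
    intro i _
    rw [if_neg]
    intro hi
    apply hD
    have : v ∈ univ.filter (fun w => D u w) := by
      rw [h4]
      exact mem_image.2 ⟨i, mem_univ _, hi⟩
    exact (mem_filter.1 this).2

open Classical in
/-- sizes from half the number of permutations on -/
theorem cov_N {V W : Type} [Fintype V] [Finite W] (G : SimpleGraph V)
    (N lam T : ℕ) (hN : 1 ≤ N) (hT : 1 ≤ T) (hlam : 1 ≤ lam) (hN2 : N + 1 ≤ 2 * (lam * T))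
    (σ : ℕ → Equiv.Perm V)
    (hσ : ∀ u v, ∑ j ∈ range N, arc (σ j) u v = lam * (if G.Adj u v then 1 else 0))
    (f : W → V) (hf : ∀ v, {w | f w = v}.ncard = lam * T) :
    Cov (G.comap f) (N * T + 1) := by
  set m := lam * T with hm
  have hm1 : 1 ≤ m := Nat.mul_pos hlam hT
  have e1 : N * ((m + N - 1) / N) ≤ m + N - 1 := Nat.mul_div_le _ _
  have e2 : m + N - 1 < N * ((m + N - 1) / N) + N := by
    have := Nat.lt_mul_div_succ (m + N - 1) (show 0 < N by omega)
    rw [mul_add, mul_one] at this
    exact this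
  have e3 : m < N → N * ((m + N - 1) / N) ≤ N := by
    intro h
    have : (m + N - 1) / N < 2 := by
      rw [Nat.div_lt_iff_lt_mul (by omega)]
      omega
    calc N * ((m + N - 1) / N) ≤ N * 1 := Nat.mul_le_mul_left _ (by omega)
      _ = N := mul_one _
  refine cov_perm G N lam T ((m + N - 1) / N) hT hlam ?_ ?_ σ hσ f hf
  · rw [← hm, mul_comm _ N]
    omega
  · by_cases h : m < N
    · have := e3 h
      omega
    · omega

theorem cov_even {V W : Type} [Finite V] [Finite W] (G : SimpleGraph V) (k m : ℕ) (hk : 1 ≤ k)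
    (hm : k + 1 ≤ 2 * m) (hdeg : ∀ v, (G.neighborSet v).ncard = 2 * k)
    (f : W → V) (hf : ∀ v, {w | f w = v}.ncard = m) : Cov (G.comap f) (k * m + 1) := by
  classical
  have := Fintype.ofFinite V
  obtain ⟨D, hD, hout, hin⟩ := Pool.Agent.R448.LP.exists_orient G k hdeg
  obtain ⟨σ, hσ⟩ := exists_sigma D k hout hin
  have hdisj : ∀ u v, D u v → ¬ D v u := by
    intro u v h1 h2
    have e1 : G.neighborSet u = {w | D u w} ∪ {w | D w u} := by
      ext w
      exact hD u w
    have e2 := Set.ncard_union_add_ncard_inter {w | D u w} {w | D w u}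
      (Set.toFinite _) (Set.toFinite _)
    rw [← e1, hdeg, hout, hin] at e2
    have e3 : 0 < ({w | D u w} ∩ {w | D w u}).ncard :=
      (Set.ncard_pos (Set.toFinite _)).2 ⟨v, h1, h2⟩
    omega
  refine cov_N G k 1 m hk (by omega) le_rfl (by omega) σ (fun u v => ?_) f (by simpa using hf)
  unfold arc
  rw [Finset.sum_add_distrib, hσ, hσ, one_mul]
  by_cases h1 : D u v
  · rw [if_pos h1, if_neg (hdisj u v h1), if_pos ((hD u v).2 (Or.inl h1))]
  · by_cases h2 : D v u
    · rw [if_neg h1, if_pos h2, if_pos ((hD u v).2 (Or.inr h2))]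
    · rw [if_neg h1, if_neg h2, if_neg]
      rw [hD]
      tauto

theorem cov_any {V W : Type} [Finite V] [Finite W] (G : SimpleGraph V) (d T : ℕ) (hd : 1 ≤ d)
    (hT : d + 1 ≤ 2 * (2 * T)) (hdeg : ∀ v, (G.neighborSet v).ncard = d)
    (f : W → V) (hf : ∀ v, {w | f w = v}.ncard = 2 * T) : Cov (G.comap f) (d * T + 1) := by
  classical
  have := Fintype.ofFinite V
  obtain ⟨σ, hσ⟩ := exists_sigma (fun u v => G.Adj u v) d hdeg (fun v => by
    rw [← hdeg v]
    congr 1
    ext w
    exact G.adj_comm w v)
  refine cov_N G d 2 T hd (by omega) (by omega) hT σ (fun u v => ?_) f hf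
  unfold arc
  rw [Finset.sum_add_distrib, hσ, hσ]
  by_cases h1 : G.Adj u v
  · rw [if_pos h1, if_pos h1.symm]
  · rw [if_neg h1, if_neg (fun h => h1 h.symm)]

/-- blow-ups of a graph of maximum degree at most `d` -/
theorem cov_le {V W : Type} [Finite V] [Finite W] (G : SimpleGraph V) (d m k : ℕ)
    (hG : ∀ v, (G.neighborSet v).ncard ≤ d)
    (hreg : ∀ (V W : Type) [Finite V] [Finite W] (H : SimpleGraph V),
      (∀ v, (H.neighborSet v).ncard = d) → ∀ (f : W → V), (∀ v, {x | f x = v}.ncard = m) →
      Cov (H.comap f) k)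
    (f : W → V) (hf : ∀ v, {x | f x = v}.ncard = m) : Cov (G.comap f) k := by
  refine Pool.Agent.N347.LB.cov_embed G false d m k hG ?_ f hf (G.comap f) ?_
  · intro V W _ _ H hH f hf X hX
    have : X = H.comap f := by
      ext x y
      rw [hX]
      simp only [SimpleGraph.comap_adj, Bool.false_eq_true, and_false, or_false]
      exact ⟨fun h => h.2, fun h => ⟨fun hxy => by subst hxy; exact h.ne rfl, h⟩⟩
    rw [this]
    exact hreg V W H hH f hf
  · intro x y
    simp only [SimpleGraph.comap_adj, Bool.false_eq_true, and_false, or_false]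
    exact ⟨fun h => ⟨fun hxy => by subst hxy; exact h.ne rfl, h⟩, fun h => h.2⟩

end Pool.Agent.U503.LB
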